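import Mathlib

set_option autoImplicit false

open Set Filter Topology TopologicalSpace Metric

namespace Pool.Agent.H.MP_98c8dd_gt

section
variable {X : Type} [TopologicalSpace X]

lemma cc {W : Set X} (hW : IsClosed W) (x : X) : IsClosed (connectedComponentIn W x) := by
  by_cases hx : x ∈ W
  · rw [connectedComponentIn_eq_image hx]
    exact hW.isClosedMap_subtype_val _ isClosed_connectedComponent
  · rw [connectedComponentIn_eq_empty hx]
    exact isClosed_empty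

variable [CompactSpace X] [T2Space X]

/-- boundary bumping -/
lemma bb {C W N : Set X} {x : X} (h1 : IsClosed C) (h2 : IsPreconnected C) (hW : IsClosed W)
    (hN : IsOpen N) (h3 : N ⊆ W) (hx : x ∈ C ∩ W) (h4 : ¬ C ⊆ N) :
    ¬ connectedComponentIn (C ∩ W) x ⊆ N := fun h => by
  have hZ := h1.inter hW
  have := isCompact_iff_compactSpace.1 hZ.isCompact
  rw [connectedComponentIn_eq_image hx, image_subset_iff,
    connectedComponent_eq_iInter_isClopen] at h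
  have : Nonempty {s : Set (C ∩ W : Set X) // IsClopen s ∧ ⟨x, hx⟩ ∈ s} :=
    ⟨⟨univ, isClopen_univ, trivial⟩⟩
  obtain ⟨⟨D, d1, d2⟩, d3⟩ := exists_subset_nhds_of_compactSpace (U := Subtype.val ⁻¹' N)
    (V := fun s : {s : Set (C ∩ W : Set X) // IsClopen s ∧ ⟨x, hx⟩ ∈ s} => s.1)
    (fun s t => ⟨⟨s.1 ∩ t.1, s.2.1.inter t.2.1, s.2.2, t.2.2⟩,
      inter_subset_left, inter_subset_right⟩) (fun s => s.2.1.1)
    fun z hz => (hN.preimage continuous_subtype_val).mem_nhds (h hz)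
  obtain ⟨u, hu, rfl⟩ := isOpen_induced_iff.1 d1.2
  obtain ⟨r, hr, hr'⟩ := not_subset.1 h4
  obtain ⟨_, -, ⟨z, hz, rfl⟩, hz'⟩ := isPreconnected_closed_iff.1 h2 _ _
    (hZ.isClosedMap_subtype_val _ d1.1) (hu.inter hN).isClosed_compl
    (fun z hz => (em _).imp_left fun h => ⟨⟨z, hz, h3 h.2⟩, h.1, rfl⟩)
    ⟨x, hx.1, _, d2, rfl⟩ ⟨r, hr, fun h => hr' h.2⟩
  exact hz' ⟨hz, d3 hz⟩

/-- Sierpinski's theorem on countable closed partitions of continua -/
lemma sier {ι : Type} [Countable ι] [Nonempty ι] {C : Set X} (h1 : IsClosed C)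
    (h2 : IsPreconnected C) (f : ι → Set X) (hf : ∀ n, IsClosed (f n))
    (hd : ∀ i j, (f i ∩ f j).Nonempty → f i = f j) (hc : C ⊆ ⋃ n, f n) : ∃ n, C ⊆ f n := by
  by_contra! h
  obtain ⟨e, he⟩ := exists_surjective_nat ι
  let P := {D : Set X // IsClosed D ∧ IsPreconnected D ∧ D ⊆ C ∧ ∀ n, ¬ D ⊆ f n}
  have : ∀ (D : P) n, ∃ E : P, E.1 ⊆ D.1 ∧ Disjoint E.1 (f n) := fun ⟨D, d1, d2, d3, d4⟩ n => by
    by_cases h0 : Disjoint D (f n)
    · exact ⟨⟨D, d1, d2, d3, d4⟩, Subset.rfl, h0⟩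
    obtain ⟨x, x1, x2⟩ := not_subset.1 (d4 n)
    obtain ⟨j, hj⟩ := mem_iUnion.1 (hc (d3 x1))
    obtain ⟨N, n1, n2, n3⟩ := (hf j).isCompact.exists_isOpen_closure_subset
      ((hf n).isOpen_compl.mem_nhdsSet.2 fun z hz hz' => x2 (hd j n ⟨z, hz, hz'⟩ ▸ hj))
    have hx : x ∈ D ∩ closure N := ⟨x1, subset_closure (n2 hj)⟩
    have s := connectedComponentIn_subset (D ∩ closure N) x
    refine ⟨⟨_, cc (d1.inter isClosed_closure) x, isPreconnected_connectedComponentIn,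
      fun z hz => d3 (s hz).1, fun m hm => bb d1 d2 isClosed_closure n1 subset_closure hx
        (fun h => h0 (disjoint_left.2 fun z hz => n3 (subset_closure (h hz)))) ?_⟩,
      fun z hz => (s hz).1, disjoint_left.2 fun z hz => n3 (s hz).2⟩
    exact hm.trans (hd j m ⟨x, hj, hm (mem_connectedComponentIn hx)⟩ ▸ n2)
  choose g g1 g2 using this
  let D : ℕ → P := fun n => Nat.rec ⟨C, h1, h2, Subset.rfl, h⟩ (fun k D => g D (e k)) n
  obtain ⟨z, hz⟩ := IsCompact.nonempty_iInter_of_sequence_nonempty_isCompact_isClosed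
    (fun n => (D n).1) (fun n => g1 _ _) (fun n => nonempty_iff_ne_empty.2 fun h0 =>
      (D n).2.2.2.2 (e 0) (h0 ▸ empty_subset _)) h1.isCompact fun n => (D n).2.1
  obtain ⟨j, hj⟩ := mem_iUnion.1 (hc (mem_iInter.1 hz 0))
  obtain ⟨n, rfl⟩ := he j
  exact disjoint_left.1 (g2 (D n) (e n)) (mem_iInter.1 hz (n + 1)) hj

lemma sig {A : Set X} {a : X} (h : ∀ R : X → X → Prop, (∀ x y, R x y → R y x) →
    (∀ x y z, R x y → R y z → R x z) →
    (∀ K ⊆ A, IsClosed K → IsPreconnected K → ∀ x ∈ K, ∀ y ∈ K, R x y) →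
    (∀ x, ∀ z ∈ A, z ∈ closure {y | R x y} → R x z) → ∀ y ∈ A, R a y) :
    ¬ ∃ F : ℕ → Set X, (∀ n, ∃ D : Set X, IsClosed D ∧ F n = D ∩ A) ∧
      (∀ i j, i ≠ j → Disjoint (F i) (F j)) ∧ (⋃ n, F n) = A ∧
      (∃ i j, i ≠ j ∧ (F i).Nonempty ∧ (F j).Nonempty) := by
  rintro ⟨F, h1, h2, h3, i, j, h4, ⟨x, hx⟩, y, hy⟩
  choose D d1 d2 using h1
  have u : ∀ {x i j}, x ∈ F i → x ∈ F j → i = j := fun a b =>
    by_contra fun h => disjoint_left.1 (h2 _ _ h) a b
  have := h (fun x y => ∃ n, x ∈ F n ∧ y ∈ F n) (fun x y ⟨n, a, b⟩ => ⟨n, b, a⟩)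
    (fun x y z ⟨n, a, b⟩ ⟨m, c, d⟩ => ⟨n, a, u b c ▸ d⟩) (fun K k1 k2 k3 x hx y hy => by
      have e : ∀ n, ∀ z ∈ K, z ∈ D n → z ∈ F n := fun n z a b => d2 n ▸ ⟨b, k1 a⟩
      obtain ⟨n, hn⟩ := sier k2 k3 (fun n => K ∩ D n) (fun n => k2.inter (d1 n))
        (fun i j ⟨z, a, b⟩ => by rw [u (e i z a.1 a.2) (e j z b.1 b.2)]) fun z hz => by
          obtain ⟨n, hn⟩ := mem_iUnion.1 (h3.ge (k1 hz))
          exact mem_iUnion.2 ⟨n, hz, (d2 n ▸ hn :).1⟩
      exact ⟨n, e n x hx (hn hx).2, e n y hy (hn hy).2⟩) fun x z hz hz' => by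
      obtain ⟨w, n, a, b⟩ := closure_nonempty_iff.1 ⟨z, hz'⟩
      refine ⟨n, a, d2 n ▸ ⟨closure_minimal ?_ (d1 n) hz', hz⟩⟩
      rintro v ⟨m, c, d⟩
      exact (d2 n ▸ u c a ▸ d :).1
  obtain ⟨n, a, b⟩ := this x (h3.le (mem_iUnion.2 ⟨i, hx⟩))
  obtain ⟨m, c, d⟩ := this y (h3.le (mem_iUnion.2 ⟨j, hy⟩))
  exact h4 ((u hx b).trans ((u a c).trans (u d hy)))

/-- composant of `x` in the complement of `F` -/
def H (F : Set X) (x : X) : Set X :=
  {y | ∃ K ⊆ Fᶜ, IsClosed K ∧ IsPreconnected K ∧ x ∈ K ∧ y ∈ K}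

omit [CompactSpace X] [T2Space X] in
lemma H_symm {F : Set X} {x y : X} : y ∈ H F x → x ∈ H F y :=
  fun ⟨K, a, b, c, d, e⟩ => ⟨K, a, b, c, e, d⟩

omit [CompactSpace X] [T2Space X] in
lemma H_trans {F : Set X} {x y z : X} : y ∈ H F x → z ∈ H F y → z ∈ H F x :=
  fun ⟨K, a, b, c, d, e⟩ ⟨L, a', b', c', d', e'⟩ =>
    ⟨K ∪ L, union_subset a a', b.union b', c.union y e d' c', .inl d, .inr e'⟩

lemma H_lim [ConnectedSpace X] {F : Set X} (hF : IsClosed F) {p x : X} (hp : p ∈ F) (hx : x ∉ F) :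
    ∃ z ∈ F, z ∈ closure (H F x) := by
  by_contra! h
  obtain ⟨N, n1, n2, n3⟩ := (isClosed_closure (s := H F x)).isCompact.exists_isOpen_closure_subset
    (hF.isOpen_compl.mem_nhdsSet.2 fun z hz hz' => h z hz' hz)
  have h0 : x ∈ univ ∩ closure N := ⟨trivial, subset_closure (n2 (subset_closure ⟨{x},
    singleton_subset_iff.2 hx, isClosed_singleton, isPreconnected_singleton, rfl, rfl⟩))⟩
  exact bb isClosed_univ isPreconnected_univ isClosed_closure n1 subset_closure h0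
    (fun h => n3 (subset_closure (h (mem_univ p))) hp) fun z hz => n2 (subset_closure
      ⟨_, fun w hw => n3 (connectedComponentIn_subset _ _ hw).2,
        cc (isClosed_univ.inter isClosed_closure) x, isPreconnected_connectedComponentIn,
        mem_connectedComponentIn h0, hz⟩)

end

lemma H_sigma {X : Type} [MetricSpace X] [CompactSpace X] {F : Set X} (hF : IsClosed F) (x : X) :
    IsSigmaCompact (H F x) := by
  refine ⟨fun j => connectedComponentIn (thickening (1 / ((j : ℝ) + 1)) F)ᶜ x,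
    fun j => (cc isOpen_thickening.isClosed_compl x).isCompact, Subset.antisymm
      (iUnion_subset fun j y hy => ⟨_, (connectedComponentIn_subset _ _).trans
        (compl_subset_compl.2 (self_subset_thickening (by positivity) F)),
        cc isOpen_thickening.isClosed_compl x, isPreconnected_connectedComponentIn,
        mem_connectedComponentIn (connectedComponentIn_nonempty_iff.1 ⟨y, hy⟩), hy⟩) ?_⟩
  rintro y ⟨K, a, b, c, d, e⟩
  obtain ⟨δ, h0, h⟩ := (subset_compl_iff_disjoint_right.1 a).exists_thickenings b.isCompact hF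
  obtain ⟨j, hj⟩ := exists_nat_one_div_lt h0
  exact mem_iUnion.2 ⟨j, c.subset_connectedComponentIn d (fun z hz hz' => disjoint_left.1 h
    (self_subset_thickening h0 K hz) (thickening_mono hj.le F hz')) e⟩

end Pool.Agent.H.MP_98c8dd_gt
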